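import Mathlib

/-!
# The ternary Stanley sequence and modular sets

`s m` is the number whose base 3 digits are the base 2 digits of `m`.
A *modular set* `A` modulo `N` (after Moy and Rolnick) gives the independent Stanley sequence
`N * s q + A_i`.
-/

set_option autoImplicit false

namespace Pool.Agent.TH406.Stan

/-- binary digits read in base 3 -/
def s : ℕ → ℕ
  | 0 => 0
  | (n + 1) => 3 * s ((n + 1) / 2) + (n + 1) % 2
decreasing_by omega

lemma s_zero : s 0 = 0 := by rw [s]

lemma s_rec (n : ℕ) : s n = 3 * s (n / 2) + n % 2 := by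
  cases n with
  | zero => simp [s_zero]
  | succ n => rw [s]

lemma s_strict : StrictMono s := by
  intro m n
  induction n using Nat.strong_induction_on generalizing m with
  | _ n ih =>
    intro hmn
    rw [s_rec m, s_rec n]
    rcases Nat.lt_or_ge (m / 2) (n / 2) with h | h
    · have := ih (n / 2) (by omega) h
      omega
    · have h1 : m / 2 = n / 2 := by omega
      rw [h1]
      omega

lemma s_pow_add (k q : ℕ) (hq : q < 2 ^ k) : s (2 ^ k + q) = 3 ^ k + s q := by
  induction k generalizing q with
  | zero =>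
    have : q = 0 := by simpa using hq
    subst this
    rw [s_rec]
    simp [s_zero]
  | succ k ih =>
    rw [pow_succ] at hq
    have h1 := ih (q / 2) (by omega)
    rw [s_rec (2 ^ (k + 1) + q), s_rec q]
    have h2 : (2 ^ (k + 1) + q) / 2 = 2 ^ k + q / 2 := by
      rw [pow_succ]; omega
    have h3 : (2 ^ (k + 1) + q) % 2 = q % 2 := by
      rw [pow_succ]; omega
    rw [h2, h3, h1, pow_succ]
    omega

lemma s_pow (k : ℕ) : s (2 ^ k) = 3 ^ k := by
  have := s_pow_add k 0 (by positivity)
  simpa [s_zero] using this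

lemma s_pow_sub (k : ℕ) : 2 * s (2 ^ k - 1) + 1 = 3 ^ k := by
  induction k with
  | zero => simp [s_zero]
  | succ k ih =>
    have hpos : 0 < 2 ^ k := by positivity
    rw [s_rec]
    have h2 : (2 ^ (k + 1) - 1) / 2 = 2 ^ k - 1 := by
      rw [pow_succ]; omega
    have h3 : (2 ^ (k + 1) - 1) % 2 = 1 := by
      rw [pow_succ]; omega
    rw [h2, h3, pow_succ 3 k]
    omega

lemma s_free (x y z : ℕ) (h : s x + s z = 2 * s y) : x = y ∧ z = y := by
  induction hn : x + y + z using Nat.strong_induction_on generalizing x y z with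
  | _ n ih =>
    rcases Nat.eq_zero_or_pos n with h0 | h0
    · omega
    · rw [s_rec x, s_rec y, s_rec z] at h
      have h1 := ih (x / 2 + y / 2 + z / 2) (by omega) (x / 2) (y / 2) (z / 2) (by omega) rfl
      omega

lemma s_cov (m : ℕ) : ∃ q q' : ℕ, q ≤ q' ∧ 2 * s q' = m + s q := by
  induction m using Nat.strong_induction_on with
  | _ m ih =>
    rcases Nat.eq_zero_or_pos m with h0 | h0
    · exact ⟨0, 0, le_rfl, by simp [h0, s_zero]⟩
    · obtain ⟨q, q', hq, h⟩ := ih (m / 3) (by omega)
      have e0 : ∀ q, s (2 * q) = 3 * s q := by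
        intro q
        rw [s_rec (2 * q)]
        have : 2 * q / 2 = q := by omega
        rw [this]; omega
      have e1 : ∀ q, s (2 * q + 1) = 3 * s q + 1 := by
        intro q
        rw [s_rec (2 * q + 1)]
        have : (2 * q + 1) / 2 = q := by omega
        rw [this]; omega
      have h3 : m % 3 = 0 ∨ m % 3 = 1 ∨ m % 3 = 2 := by omega
      rcases h3 with h3 | h3 | h3
      · exact ⟨2 * q, 2 * q', by omega, by rw [e0, e0]; omega⟩
      · exact ⟨2 * q + 1, 2 * q' + 1, by omega, by rw [e1, e1]; omega⟩
      · exact ⟨2 * q, 2 * q' + 1, by omega, by rw [e1, e0]; omega⟩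

/-- A modular set modulo `N`. -/
structure ModSet (A : Finset ℕ) (N : ℕ) : Prop where
  zero : 0 ∈ A
  lt : ∀ a ∈ A, a < N
  free : ∀ a ∈ A, ∀ b ∈ A, ∀ c ∈ A, (N : ℤ) ∣ (a : ℤ) + c - 2 * b → a = b ∧ c = b
  cov : ∀ x < N, x ∉ A → ∃ a ∈ A, ∃ b ∈ A, a < b ∧ (N : ℤ) ∣ 2 * (b : ℤ) - a - x

/-- The integer `lam` is the character of the Stanley sequence given by a modular set. -/
def Att (lam : ℕ) : Prop :=
  ∃ (A : Finset ℕ) (N κ M : ℕ), ModSet A N ∧ A.card = 2 ^ κ ∧ M ∈ A ∧ (∀ a ∈ A, a ≤ M) ∧
    2 * M + 1 = N + lam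

lemma enum (A : Finset ℕ) (K : ℕ) (h : A.card = K) :
    ∃ f : ℕ → ℕ, (∀ i < K, f i ∈ A) ∧ (∀ i j, i < j → j < K → f i < f j) ∧
      (∀ x ∈ A, ∃ i < K, f i = x) := by
  refine ⟨fun i => if hi : i < K then A.orderEmbOfFin h ⟨i, hi⟩ else 0, ?_, ?_, ?_⟩
  · intro i hi
    simp only [hi, dif_pos]
    exact A.orderEmbOfFin_mem h _
  · intro i j hij hj
    simp only [hj, dif_pos, hij.trans hj]
    exact (A.orderEmbOfFin h).strictMono (by simpa using hij)
  · intro x hx
    have : x ∈ Set.range (A.orderEmbOfFin h) := by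
      rw [Finset.range_orderEmbOfFin]; exact hx
    obtain ⟨⟨i, hi⟩, hi2⟩ := this
    exact ⟨i, hi, by simp only [hi, dif_pos]; exact hi2⟩

theorem main (lam : ℕ) (hatt : Att lam) :
    ∃ a : ℕ → ℕ, ∃ t : ℕ, StrictMono a ∧
        (∀ i j k : ℕ, i < j → j < k → a i + a k ≠ 2 * a j) ∧
        (∀ n : ℕ, t < n → ∀ m : ℕ, a (n - 1) < m → m < a n →
          ∃ i j : ℕ, i < j ∧ j < n ∧ a i + m = 2 * a j) ∧
        (∃ k : ℕ, ∀ k' : ℕ, k ≤ k' →
          (∀ i : ℕ, i < 2 ^ k' → a (2 ^ k' + i) = a (2 ^ k') + a i) ∧
          ((a (2 ^ k') : ℤ) = 2 * (a (2 ^ k' - 1) : ℤ) - lam + 1)) := by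
  obtain ⟨A, N, κ, M, hA, hcard, hM, hmax, hlam⟩ := hatt
  obtain ⟨f, hf1, hf2, hf3⟩ := enum A (2 ^ κ) hcard
  set K := 2 ^ κ with hK
  have hKpos : 0 < K := by positivity
  have hNpos : 0 < N := lt_of_le_of_lt (Nat.zero_le _) (hA.lt 0 hA.zero)
  have hf0 : f 0 = 0 := by
    obtain ⟨i, hi, h⟩ := hf3 0 hA.zero
    rcases Nat.eq_zero_or_pos i with h0 | h0
    · subst h0; exact h
    · have := hf2 0 i h0 hi
      omega
  have hfK : f (K - 1) = M := by
    obtain ⟨i, hi, h⟩ := hf3 M hM
    rcases Nat.lt_or_ge i (K - 1) with h0 | h0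
    · have h1 := hf2 i (K - 1) h0 (by omega)
      have h2 := hmax _ (hf1 (K - 1) (by omega))
      omega
    · have : i = K - 1 := by omega
      rw [← this]; exact h
  have hflt : ∀ i < K, f i < N := fun i hi => hA.lt _ (hf1 i hi)
  set a : ℕ → ℕ := fun n => N * s (n / K) + f (n % K) with ha
  have haval : ∀ q i, i < K → a (K * q + i) = N * s q + f i := by
    intro q i hi
    simp only [ha]
    rw [Nat.mul_add_div hKpos, Nat.div_eq_of_lt hi, Nat.mul_add_mod, Nat.mod_eq_of_lt hi, add_zero]
  have hmono : StrictMono a := by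
    intro n n' hnn
    simp only [ha]
    have h1 : n % K < K := Nat.mod_lt _ hKpos
    have h2 : n' % K < K := Nat.mod_lt _ hKpos
    rcases Nat.lt_or_ge (n / K) (n' / K) with h | h
    · have h3 := s_strict h
      have h4 := hflt _ h1
      have h5 : N * s (n / K) + N ≤ N * s (n' / K) := by
        calc N * s (n / K) + N = N * (s (n / K) + 1) := by ring
          _ ≤ N * s (n' / K) := Nat.mul_le_mul_left _ h3
      omega
    · have h3 : n / K = n' / K := le_antisymm (Nat.div_le_div_right hnn.le) h
      have h4 : n % K < n' % K := by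
        have e1 := Nat.div_add_mod n K
        have e2 := Nat.div_add_mod n' K
        rw [h3] at e1
        omega
      have h5 := hf2 _ _ h4 h2
      rw [h3]
      omega
  refine ⟨a, K, hmono, ?_, ?_, ?_⟩
  · -- no progressions
    intro i j k hij hjk h
    simp only [ha] at h
    have hi := hf1 _ (Nat.mod_lt i hKpos)
    have hj := hf1 _ (Nat.mod_lt j hKpos)
    have hk := hf1 _ (Nat.mod_lt k hKpos)
    have h1 := hA.free _ hi _ hj _ hk
      ⟨2 * (s (j / K) : ℤ) - s (i / K) - s (k / K), by
        have : ((N * s (i / K) + f (i % K) + (N * s (k / K) + f (k % K)) : ℕ) : ℤ) =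
          ((2 * (N * s (j / K) + f (j % K)) : ℕ) : ℤ) := by rw [h]
        push_cast at this
        linear_combination this⟩
    have h2 : N * (s (i / K) + s (k / K)) = N * (2 * s (j / K)) := by
      rw [h1.1, h1.2] at h
      have e1 : N * (s (i / K) + s (k / K)) = N * s (i / K) + N * s (k / K) := by ring
      have e2 : N * (2 * s (j / K)) = 2 * (N * s (j / K)) := by ring
      omega
    have h3 := s_free _ _ _ (Nat.eq_of_mul_eq_mul_left hNpos h2)
    have h4 : a i = a j := by
      simp only [ha]
      rw [h3.1, h1.1]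
    exact absurd h4 (hmono hij).ne
  · -- greedy
    intro n hn m hm1 hm2
    have haK : a K = N := by
      have := haval 1 0 hKpos
      rw [mul_one, add_zero] at this
      rw [this, hf0]
      have : s 1 = 1 := by
        rw [s_rec]; simp [s_zero]
      rw [this]; omega
    have hmN : N < m := by
      have : a K ≤ a (n - 1) := hmono.monotone (by omega)
      omega
    -- the key covering statement
    have key : ∃ i j : ℕ, i < j ∧ a i + m = 2 * a j := by
      have hdm := Nat.div_add_mod m N
      have hr : m % N < N := Nat.mod_lt _ hNpos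
      have hq1 : 1 ≤ m / N := (Nat.one_le_div_iff hNpos).2 hmN.le
      by_cases hrA : m % N ∈ A
      · obtain ⟨i, hi, hfi⟩ := hf3 _ hrA
        obtain ⟨q, q', hqq, hs⟩ := s_cov (m / N)
        have hne : q ≠ q' := by
          intro he
          rw [he] at hs
          have h1 : s q' = m / N := by omega
          have h2 : a (K * q' + i) = m := by
            rw [haval _ _ hi, h1, hfi]
            exact hdm
          have h3 : n - 1 < K * q' + i := by
            rw [← hmono.lt_iff_lt]; omega
          have h4 : K * q' + i < n := by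
            rw [← hmono.lt_iff_lt]; omega
          omega
        refine ⟨K * q + i, K * q' + i, ?_, ?_⟩
        · have : K * q < K * q' := Nat.mul_lt_mul_of_pos_left (lt_of_le_of_ne hqq hne) hKpos
          omega
        · rw [haval _ _ hi, haval _ _ hi, hfi]
          have h5 : N * (2 * s q') = N * (m / N + s q) := by rw [hs]
          have e1 : N * (2 * s q') = 2 * (N * s q') := by ring
          have e2 : N * (m / N + s q) = N * (m / N) + N * s q := by ring
          omega
      · obtain ⟨x, hx, y, hy, hxy, hd⟩ := hA.cov _ hr hrA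
        obtain ⟨i, hi, hfi⟩ := hf3 x hx
        obtain ⟨j, hj, hfj⟩ := hf3 y hy
        have hij : i < j := by
          by_contra hcon
          push Not at hcon
          rcases Nat.eq_or_lt_of_le hcon with h | h
          · rw [← hfi, ← hfj, h] at hxy; exact absurd hxy (lt_irrefl _)
          · have := hf2 _ _ h hi; omega
        -- 2 y - x = m % N + ε N with ε ∈ {0, 1}
        have hyN := hA.lt y hy
        obtain ⟨e, he⟩ := hd
        have he2 : e = 0 ∨ e = 1 := by
          have h1 : (N : ℤ) * e < N * 2 := by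
            rw [← he]; push_cast; omega
          have h2 : (N : ℤ) * (-1) < N * e := by
            rw [← he]; push_cast; omega
          have h3 := lt_of_mul_lt_mul_left h1 (by positivity)
          have h4 := lt_of_mul_lt_mul_left h2 (by positivity)
          omega
        obtain ⟨ε, hε, hε1⟩ : ∃ ε : ℕ, 2 * y = x + m % N + ε * N ∧ ε ≤ 1 := by
          rcases he2 with h | h
          · refine ⟨0, ?_, by omega⟩
            rw [h] at he
            simp only [mul_zero] at he
            omega
          · refine ⟨1, ?_, le_rfl⟩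
            rw [h] at he
            simp only [mul_one] at he
            omega
        obtain ⟨q, q', hqq, hs⟩ := s_cov (m / N - ε)
        have hs' : 2 * s q' + ε = m / N + s q := by omega
        refine ⟨K * q + i, K * q' + j, ?_, ?_⟩
        · have : K * q ≤ K * q' := Nat.mul_le_mul_left _ hqq
          omega
        · rw [haval _ _ hi, haval _ _ hj, hfi, hfj]
          have h5 : N * (2 * s q' + ε) = N * (m / N + s q) := by rw [hs']
          have e1 : N * (2 * s q' + ε) = 2 * (N * s q') + ε * N := by ring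
          have e2 : N * (m / N + s q) = N * (m / N) + N * s q := by ring
          omega
    obtain ⟨i, j, hij, h⟩ := key
    refine ⟨i, j, hij, ?_, h⟩
    have h1 := hmono hij
    rw [← hmono.lt_iff_lt]
    omega
  · refine ⟨κ, ?_⟩
    intro k' hk'
    obtain ⟨d, rfl⟩ := Nat.exists_eq_add_of_le hk'
    have e1 : 2 ^ (κ + d) = K * 2 ^ d := by rw [pow_add]
    have e2 : a (2 ^ (κ + d)) = N * 3 ^ d := by
      have := haval (2 ^ d) 0 hKpos
      rw [add_zero] at this
      rw [e1, this, hf0, s_pow, add_zero]
    constructor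
    · intro i hi
      rw [e2, e1]
      have h1 : i % K < K := Nat.mod_lt _ hKpos
      have h2 : i / K < 2 ^ d := by
        rw [e1] at hi
        exact Nat.div_lt_of_lt_mul hi
      have h3 : K * 2 ^ d + i = K * (2 ^ d + i / K) + i % K := by
        have := Nat.div_add_mod i K
        rw [mul_add]; omega
      rw [h3, haval _ _ h1, s_pow_add _ _ h2]
      simp only [ha]
      ring
    · have h1 : 2 ^ (κ + d) - 1 = K * (2 ^ d - 1) + (K - 1) := by
        rw [e1]
        have : 0 < 2 ^ d := by positivity
        obtain ⟨w, hw⟩ := Nat.exists_eq_add_of_lt this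
        rw [hw]
        have : K * (0 + w + 1) = K * w + K := by ring
        rw [this]
        have : 0 + w + 1 - 1 = w := by omega
        rw [this]
        omega
      rw [e2, h1, haval _ _ (by omega), hfK]
      have h2 := s_pow_sub d
      have h3 : (2 * (s (2 ^ d - 1) : ℤ) + 1) = 3 ^ d := by exact_mod_cast h2
      have h4 : (2 * (M : ℤ) + 1) = N + lam := by exact_mod_cast hlam
      push_cast
      linear_combination (-(N : ℤ)) * h3 - h4

end Pool.Agent.TH406.Stan
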