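import Mathlib
import Pool.Agent.TH406.Stan.Seq

/-!
# Operations on modular sets
-/

set_option autoImplicit false

namespace Pool.Agent.TH406.Stan

open Finset

/-- `{a + P d : a ∈ A, d ∈ G a}` -/
def tower (A : Finset ℕ) (P : ℕ) (G : ℕ → Finset ℕ) : Finset ℕ :=
  A.biUnion (fun a => (G a).image (fun d => a + P * d))

lemma mem_tower {A : Finset ℕ} {P : ℕ} {G : ℕ → Finset ℕ} {x : ℕ} :
    x ∈ tower A P G ↔ ∃ a ∈ A, ∃ d ∈ G a, a + P * d = x := by
  simp [tower]

lemma card_tower {A : Finset ℕ} {P : ℕ} (hA : ∀ a ∈ A, a < P) {G : ℕ → Finset ℕ} {L : ℕ}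
    (hG : ∀ a ∈ A, (G a).card = L) : (tower A P G).card = A.card * L := by
  classical
  unfold tower
  rw [Finset.card_biUnion]
  · rw [Finset.sum_congr rfl (g := fun _ => L)]
    · simp
    · intro a ha
      rw [Finset.card_image_of_injective, hG a ha]
      intro d d' h
      have hP : 0 < P := lt_of_le_of_lt (Nat.zero_le _) (hA a ha)
      exact Nat.eq_of_mul_eq_mul_left hP (Nat.add_left_cancel h)
  · intro a ha b hb hab
    rw [Function.onFun, Finset.disjoint_left]
    intro x hx hy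
    simp only [Finset.mem_image] at hx hy
    obtain ⟨d, -, hd⟩ := hx
    obtain ⟨d', -, hd'⟩ := hy
    apply hab
    have h1 : x % P = a := by
      rw [← hd, Nat.add_mul_mod_self_left, Nat.mod_eq_of_lt (hA a ha)]
    have h2 : x % P = b := by
      rw [← hd', Nat.add_mul_mod_self_left, Nat.mod_eq_of_lt (hA b hb)]
    rw [← h1, h2]

/-- Uniform covering: every integer is `2 b - a` with `a ≤ b`. -/
lemma ModSet.cov_le {A : Finset ℕ} {N : ℕ} (h : ModSet A N) (y : ℤ) :
    ∃ a ∈ A, ∃ b ∈ A, a ≤ b ∧ (N : ℤ) ∣ 2 * (b : ℤ) - a - y := by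
  have hN : 0 < N := lt_of_le_of_lt (Nat.zero_le _) (h.lt 0 h.zero)
  have hN' : (0 : ℤ) < N := by exact_mod_cast hN
  obtain ⟨x, hx⟩ : ∃ x : ℕ, (x : ℤ) = y % N := ⟨(y % N).toNat, Int.toNat_of_nonneg
    (Int.emod_nonneg _ hN'.ne')⟩
  have hxN : x < N := by
    have := Int.emod_lt_of_pos y hN'
    rw [← hx] at this
    exact_mod_cast this
  have hd : (N : ℤ) ∣ (x : ℤ) - y := by
    rw [hx]
    exact ⟨-(y / N), by linear_combination Int.emod_add_mul_ediv y N⟩
  by_cases hxA : x ∈ A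
  · refine ⟨x, hxA, x, hxA, le_rfl, ?_⟩
    have : 2 * (x : ℤ) - x - y = x - y := by ring
    rw [this]; exact hd
  · obtain ⟨a, ha, b, hb, hab, hd2⟩ := h.cov x hxN hxA
    refine ⟨a, ha, b, hb, hab.le, ?_⟩
    have : 2 * (b : ℤ) - a - y = (2 * (b : ℤ) - a - x) + (x - y) := by ring
    rw [this]; exact dvd_add hd2 hd

lemma tower_modSet {A : Finset ℕ} {P m : ℕ} {G : ℕ → Finset ℕ} (hA : ModSet A P)
    (g0 : 0 ∈ G 0) (glt : ∀ a ∈ A, ∀ d ∈ G a, d < m)
    (gfree : ∀ a ∈ A, ∀ d ∈ G a, ∀ e ∈ G a, ∀ f ∈ G a,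
      (m : ℤ) ∣ (d : ℤ) + f - 2 * e → d = e ∧ f = e)
    (gcov : ∀ a ∈ A, ∀ y < m, y ∉ G a → ∃ d ∈ G a, ∃ e ∈ G a, d < e ∧
      (m : ℤ) ∣ 2 * (e : ℤ) - d - y)
    (gx : ∀ x < P, x ∉ A → ∃ a ∈ A, ∃ b ∈ A, a < b ∧ (P : ℤ) ∣ 2 * (b : ℤ) - a - x ∧
      ∀ y : ℤ, ∃ d ∈ G a, ∃ e ∈ G b, d ≤ e ∧ (m : ℤ) ∣ 2 * (e : ℤ) - d - y) :
    ModSet (tower A P G) (P * m) := by
  have hP : 0 < P := lt_of_le_of_lt (Nat.zero_le _) (hA.lt 0 hA.zero)
  constructor
  · exact mem_tower.2 ⟨0, hA.zero, 0, g0, by simp⟩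
  · intro x hx
    obtain ⟨a, ha, d, hd, rfl⟩ := mem_tower.1 hx
    have h1 := hA.lt a ha
    have h2 := glt a ha d hd
    calc a + P * d < P + P * d := by omega
      _ = P * (d + 1) := by ring
      _ ≤ P * m := Nat.mul_le_mul_left _ h2
  · intro x hx y hy z hz h
    obtain ⟨a, ha, d, hd, rfl⟩ := mem_tower.1 hx
    obtain ⟨b, hb, e, he, rfl⟩ := mem_tower.1 hy
    obtain ⟨c, hc, f, hf, rfl⟩ := mem_tower.1 hz
    push_cast at h
    obtain ⟨w, hw⟩ := h
    have h1 := hA.free a ha b hb c hc ⟨m * w - d - f + 2 * e, by linear_combination hw⟩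
    obtain ⟨rfl, rfl⟩ := h1
    have h2 : (m : ℤ) ∣ (d : ℤ) + f - 2 * e := by
      refine ⟨w, ?_⟩
      have hP' : (P : ℤ) ≠ 0 := by exact_mod_cast hP.ne'
      apply mul_left_cancel₀ hP'
      linear_combination hw
    obtain ⟨rfl, rfl⟩ := gfree c ha d hd e he f hf h2
    exact ⟨rfl, rfl⟩
  · intro x hx hxA
    have hr : x % P < P := Nat.mod_lt _ hP
    have hq : x / P < m := Nat.div_lt_of_lt_mul hx
    have hdm := Nat.div_add_mod x P
    have hdm' : (P : ℤ) * (x / P : ℕ) + (x % P : ℕ) = x := by exact_mod_cast hdm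
    by_cases hs : x % P ∈ A
    · have hy : x / P ∉ G (x % P) := by
        intro hy
        exact hxA (mem_tower.2 ⟨_, hs, _, hy, by omega⟩)
      obtain ⟨d, hd, e, he, hde, w, hw⟩ := gcov _ hs _ hq hy
      refine ⟨x % P + P * d, mem_tower.2 ⟨_, hs, d, hd, rfl⟩, x % P + P * e,
        mem_tower.2 ⟨_, hs, e, he, rfl⟩, ?_, ?_⟩
      · have := Nat.mul_lt_mul_of_pos_left hde hP
        omega
      · refine ⟨w, ?_⟩
        push_cast at hdm' hw ⊢
        linear_combination (P : ℤ) * hw + hdm'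
    · obtain ⟨a, ha, b, hb, hab, ⟨w, hw⟩, hy⟩ := gx _ hr hs
      obtain ⟨d, hd, e, he, hde, v, hv⟩ := hy ((x / P : ℕ) - w)
      refine ⟨a + P * d, mem_tower.2 ⟨_, ha, d, hd, rfl⟩, b + P * e,
        mem_tower.2 ⟨_, hb, e, he, rfl⟩, ?_, ?_⟩
      · have := Nat.mul_le_mul_left P hde
        omega
      · refine ⟨v, ?_⟩
        push_cast at hdm' hw hv ⊢
        linear_combination (P : ℤ) * hv + hdm' + hw

/-- Product of two modular sets. -/
lemma prod_modSet {A F : Finset ℕ} {P m : ℕ} (hA : ModSet A P) (hF : ModSet F m) :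
    ModSet (tower A P (fun _ => F)) (P * m) := by
  apply tower_modSet hA hF.zero (fun _ _ => hF.lt) (fun _ _ => hF.free) (fun _ _ => hF.cov)
  intro x hx hxA
  obtain ⟨a, ha, b, hb, hab, hd⟩ := hA.cov x hx hxA
  exact ⟨a, ha, b, hb, hab, hd, hF.cov_le⟩

/-- A modular set with a marked nonzero element `r` such that all the residues `2 b - r`
with `b > r` have a second representation. -/
def Seed (P r : ℕ) : Prop :=
  ∃ (A : Finset ℕ) (k : ℕ), ModSet A P ∧ A.card = 2 ^ k ∧ r ∈ A ∧ 0 < r ∧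
    ∀ b ∈ A, r < b → ∃ a' ∈ A, ∃ b' ∈ A, a' < b' ∧ a' ≠ r ∧
      (P : ℤ) ∣ (2 * (b' : ℤ) - a') - (2 * b - r)

/-- Fibre construction. -/
lemma att_of_seed {P r : ℕ} (hS : Seed P r) {F : Finset ℕ} {m l mx t : ℕ} (hF : ModSet F m)
    (hcF : F.card = 2 ^ l) (hmx : mx ∈ F) (hmax : ∀ f ∈ F, f ≤ mx) (ht : 1 ≤ t)
    (htm : mx + t < m) (lam : ℕ) (hl : 2 * (r + P * (mx + t)) + 1 = P * m + lam) : Att lam := by
  classical
  obtain ⟨A, k, hA, hcA, hr, hr0, hcrit⟩ := hS
  set G : ℕ → Finset ℕ := fun a => if a = r then F.image (fun d => d + t) else F with hG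
  have hGr : G r = F.image (fun d => d + t) := by simp [hG]
  have hGn : ∀ a, a ≠ r → G a = F := fun a ha => by simp [hG, ha]
  have hG0 : G 0 = F := hGn 0 hr0.ne
  have hmod : ModSet (tower A P G) (P * m) := by
    apply tower_modSet hA
    · rw [hG0]; exact hF.zero
    · intro a _ d hd
      by_cases har : a = r
      · subst har
        rw [hGr, Finset.mem_image] at hd
        obtain ⟨f, hf, rfl⟩ := hd
        have := hmax f hf
        omega
      · rw [hGn a har] at hd
        exact hF.lt d hd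
    · intro a _ d hd e he f hf h
      by_cases har : a = r
      · subst har
        rw [hGr, Finset.mem_image] at hd he hf
        obtain ⟨d', hd', rfl⟩ := hd
        obtain ⟨e', he', rfl⟩ := he
        obtain ⟨f', hf', rfl⟩ := hf
        have h2 : (m : ℤ) ∣ (d' : ℤ) + f' - 2 * e' := by
          convert h using 1
          push_cast; ring
        have := hF.free d' hd' e' he' f' hf' h2
        omega
      · rw [hGn a har] at hd he hf
        exact hF.free d hd e he f hf h
    · intro a _ y hy hyG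
      by_cases har : a = r
      · subst har
        rw [hGr] at hyG ⊢
        obtain ⟨d, hd, e, he, hde, hdiv⟩ := hF.cov_le ((y : ℤ) - t)
        have hne : d ≠ e := by
          intro hde'
          subst hde'
          apply hyG
          have h2 : (m : ℤ) ∣ ((d + t : ℕ) : ℤ) - y := by
            convert hdiv using 1
            push_cast; ring
          have h3 : d + t < m := by have := hmax d hd; omega
          have h4 : (d + t : ℕ) = y := by
            have h5 := (Nat.modEq_iff_dvd.2 h2)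
            have h6 : y % m = (d + t) % m := h5
            rw [Nat.mod_eq_of_lt hy, Nat.mod_eq_of_lt h3] at h6
            exact h6.symm
          rw [Finset.mem_image]
          exact ⟨d, hd, h4⟩
        refine ⟨d + t, Finset.mem_image_of_mem _ hd, e + t, Finset.mem_image_of_mem _ he,
          by omega, ?_⟩
        convert hdiv using 1
        push_cast; ring
      · rw [hGn a har] at hyG ⊢
        exact hF.cov y hy hyG
    · intro x hx hxA
      have main : ∃ a ∈ A, ∃ b ∈ A, a < b ∧ a ≠ r ∧ (P : ℤ) ∣ 2 * (b : ℤ) - a - x := by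
        obtain ⟨a, ha, b, hb, hab, hd⟩ := hA.cov x hx hxA
        by_cases har : a = r
        · subst har
          obtain ⟨a', ha', b', hb', hab', hne, hd'⟩ := hcrit b hb hab
          refine ⟨a', ha', b', hb', hab', hne, ?_⟩
          have : 2 * (b' : ℤ) - a' - x = ((2 * (b' : ℤ) - a') - (2 * b - a)) +
            (2 * (b : ℤ) - a - x) := by ring
          rw [this]
          exact dvd_add hd' hd
        · exact ⟨a, ha, b, hb, hab, har, hd⟩
      obtain ⟨a, ha, b, hb, hab, har, hd⟩ := main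
      refine ⟨a, ha, b, hb, hab, hd, ?_⟩
      rw [hGn a har]
      by_cases hbr : b = r
      · rw [hbr, hGr]
        intro y
        obtain ⟨f, hf, f', hf', hff, hdiv⟩ := hF.cov_le (y - 2 * t)
        refine ⟨f, hf, f' + t, Finset.mem_image_of_mem _ hf', by omega, ?_⟩
        convert hdiv using 1
        push_cast; ring
      · rw [hGn b hbr]
        exact hF.cov_le
  refine ⟨tower A P G, P * m, k + l, r + P * (mx + t), hmod, ?_, ?_, ?_, ?_⟩
  · rw [card_tower (L := 2 ^ l) hA.lt, hcA, pow_add]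
    intro a _
    by_cases har : a = r
    · rw [har, hGr, Finset.card_image_of_injective _ (fun x y h => Nat.add_right_cancel h), hcF]
    · rw [hGn a har, hcF]
  · rw [mem_tower]
    refine ⟨r, hr, mx + t, ?_, rfl⟩
    rw [hGr]
    exact Finset.mem_image_of_mem _ hmx
  · intro x hx
    obtain ⟨a, ha, d, hd, rfl⟩ := mem_tower.1 hx
    by_cases har : a = r
    · subst har
      rw [hGr, Finset.mem_image] at hd
      obtain ⟨f, hf, rfl⟩ := hd
      have h1 := hmax f hf
      have h2 : P * (f + t) ≤ P * (mx + t) := Nat.mul_le_mul_left _ (by omega)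
      omega
    · rw [hGn a har] at hd
      have h1 := hmax d hd
      have h2 := hA.lt a ha
      have h3 : P * (d + 1) ≤ P * (mx + t) := Nat.mul_le_mul_left _ (by omega)
      have h4 : P * (d + 1) = P * d + P := by ring
      omega
  · exact hl

lemma base3 (D : ℕ) (hD : D = 1 ∨ D = 2) : ModSet ({0, D} : Finset ℕ) 3 := by
  constructor
  · simp
  · intro a ha
    simp only [Finset.mem_insert, Finset.mem_singleton] at ha
    omega
  · intro a ha b hb c hc h
    simp only [Finset.mem_insert, Finset.mem_singleton] at ha hb hc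
    omega
  · intro x hx hxA
    simp only [Finset.mem_insert, Finset.mem_singleton] at hxA
    refine ⟨0, by simp, D, by simp, by omega, ?_⟩
    omega

/-- Scaling a seed by three. -/
lemma Seed.low {P r : ℕ} (hP : 2 ≤ P) (h : Seed P r) : Seed (3 * P) (3 * r) := by
  classical
  obtain ⟨A, k, hA, hcA, hr, hr0, hcrit⟩ := h
  have hPpos : 0 < P := by omega
  -- choose D
  obtain ⟨D, hD, hDA⟩ : ∃ D, (D = 1 ∨ D = 2) ∧ (r + D) % P ∉ A := by
    by_cases h1 : (r + 1) % P ∈ A
    · refine ⟨2, Or.inr rfl, ?_⟩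
      intro h2
      have e1 := Nat.div_add_mod (r + 1) P
      have e2 := Nat.div_add_mod (r + 2) P
      have e1' : (P : ℤ) * ((r + 1) / P : ℕ) + ((r + 1) % P : ℕ) = r + 1 := by exact_mod_cast e1
      have e2' : (P : ℤ) * ((r + 2) / P : ℕ) + ((r + 2) % P : ℕ) = r + 2 := by exact_mod_cast e2
      have h3 := hA.free r hr _ h1 _ h2
        ⟨2 * ((r + 1) / P : ℕ) - ((r + 2) / P : ℕ), by
          push_cast at e1' e2' ⊢
          linear_combination e2' - 2 * e1'⟩
      have h4 := h3.1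
      have h5 := hA.lt r hr
      have h6 : r + 1 < P ∨ r + 1 = P := by omega
      rcases h6 with h6 | h6
      · rw [Nat.mod_eq_of_lt h6] at h4
        omega
      · rw [h6, Nat.mod_self] at h4
        omega
    · exact ⟨1, Or.inl rfl, h1⟩
  have hbase := base3 D hD
  have hmod := prod_modSet hbase hA
  refine ⟨tower {0, D} 3 (fun _ => A), 1 + k, hmod, ?_, ?_, by omega, ?_⟩
  · rw [card_tower (L := 2 ^ k) hbase.lt (fun _ _ => hcA), pow_add, pow_one]
    congr 1
    rw [Finset.card_pair]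
    omega
  · rw [mem_tower]
    exact ⟨0, by simp, r, hr, by ring⟩
  · intro x hx hrx
    obtain ⟨β, hβ, b, hb, rfl⟩ := mem_tower.1 hx
    simp only [Finset.mem_insert, Finset.mem_singleton] at hβ
    rcases Nat.lt_or_ge r b with hrb | hrb
    · obtain ⟨a', ha', b', hb', hab', hne, w, hw⟩ := hcrit b hb hrb
      refine ⟨0 + 3 * a', mem_tower.2 ⟨0, by simp, a', ha', rfl⟩, β + 3 * b',
        mem_tower.2 ⟨β, by simpa using hβ, b', hb', rfl⟩, by omega, by omega, w, ?_⟩
      push_cast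
      linear_combination 3 * hw
    · have hbr : b = r := by omega
      subst hbr
      have hβD : β = D := by omega
      subst hβD
      obtain ⟨a', ha', b', hb', hab', w, hw⟩ := hA.cov _ (Nat.mod_lt (b + β) hPpos) hDA
      have e1 := Nat.div_add_mod (b + β) P
      have e1' : (P : ℤ) * ((b + β) / P : ℕ) + ((b + β) % P : ℕ) = b + β := by exact_mod_cast e1
      refine ⟨β + 3 * a', mem_tower.2 ⟨β, by simp, a', ha', rfl⟩, 0 + 3 * b',
        mem_tower.2 ⟨0, by simp, b', hb', rfl⟩, by omega, by omega,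
        w - ((b + β) / P : ℕ), ?_⟩
      push_cast at e1' hw ⊢
      linear_combination 3 * hw + 3 * e1'

lemma Seed.scale {P r : ℕ} (hP : 2 ≤ P) (h : Seed P r) (j : ℕ) : Seed (3 ^ j * P) (3 ^ j * r) := by
  induction j with
  | zero => simpa using h
  | succ j ih =>
    have h1 : 2 ≤ 3 ^ j * P := le_trans hP (Nat.le_mul_of_pos_left _ (by positivity))
    have h2 := ih.low h1
    have e : ∀ x, 3 ^ (j + 1) * x = 3 * (3 ^ j * x) := by intro x; ring
    rw [e, e]
    exact h2

/-- The ternary sets. -/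
lemma exists_S (l : ℕ) : ∃ (F : Finset ℕ) (mx : ℕ), ModSet F (3 ^ l) ∧ F.card = 2 ^ l ∧ mx ∈ F ∧
    (∀ f ∈ F, f ≤ mx) ∧ 2 * mx + 1 = 3 ^ l := by
  induction l with
  | zero =>
    refine ⟨{0}, 0, ?_, by simp, by simp, by simp, by simp⟩
    constructor
    · simp
    · simp
    · intro a ha b hb c hc _
      simp only [Finset.mem_singleton] at ha hb hc
      omega
    · intro x hx hxA
      simp only [pow_zero, Nat.lt_one_iff] at hx
      exact absurd hx (by simpa using hxA)
  | succ l ih =>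
    obtain ⟨F, mx, hF, hc, hmx, hmax, he⟩ := ih
    have hb := base3 1 (Or.inl rfl)
    refine ⟨tower {0, 1} 3 (fun _ => F), 1 + 3 * mx, ?_, ?_, ?_, ?_, ?_⟩
    · rw [pow_succ']
      exact prod_modSet hb hF
    · rw [card_tower (L := 2 ^ l) hb.lt (fun _ _ => hc), pow_succ']
      rfl
    · exact mem_tower.2 ⟨1, by simp, mx, hmx, rfl⟩
    · intro f hf
      obtain ⟨a, ha, d, hd, rfl⟩ := mem_tower.1 hf
      have := hmax d hd
      simp only [Finset.mem_insert, Finset.mem_singleton] at ha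
      omega
    · rw [pow_succ]; omega

/-- Odd multiples. -/
lemma Seed.att_odd {P r : ℕ} (h : Seed P r) (u : ℕ) :
    Att (2 * r + P * (2 * u + 1) + 1) := by
  obtain ⟨F, mx, hF, hc, hmx, hmax, he⟩ := exists_S (u + 2)
  have h1 : u + 2 < 3 ^ (u + 2) := Nat.lt_pow_self (by norm_num)
  have h2 : 2 * (u + 1) + 1 ≤ 3 ^ (u + 2) := by
    clear h he hmax hmx hc hF
    induction u with
    | zero => norm_num
    | succ u ih =>
      have e : 3 ^ (u + 1 + 2) = 3 * 3 ^ (u + 2) := by ring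
      have := ih (Nat.lt_pow_self (by norm_num))
      omega
  refine att_of_seed h hF hc hmx hmax (t := u + 1) (by omega) (by omega) _ ?_
  rw [← he]
  ring

/-- Even multiples, from a modular set with even modulus. -/
lemma Seed.att_even {P r : ℕ} (h : Seed P r) {B : Finset ℕ} (hB : ModSet B 10)
    (hBc : B.card = 2 ^ 2) (hB8 : 8 ∈ B) (hBmax : ∀ f ∈ B, f ≤ 8) (u : ℕ) (hu : 4 ≤ u) :
    Att (2 * r + P * (2 * u) + 1) := by
  obtain ⟨F, mx, hF, hc, hmx, hmax, he⟩ := exists_S u
  have h1 : u < 3 ^ u := Nat.lt_pow_self (by norm_num)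
  refine att_of_seed (t := u - 3) (mx := 8 + 10 * mx) h (prod_modSet hB hF) (l := 2 + u)
    ?_ ?_ ?_ (by omega) ?_ _ ?_
  · rw [card_tower (L := 2 ^ u) hB.lt (fun _ _ => hc), hBc, pow_add]
  · exact mem_tower.2 ⟨8, hB8, mx, hmx, rfl⟩
  · intro f hf
    obtain ⟨a, ha, d, hd, rfl⟩ := mem_tower.1 hf
    have := hmax d hd
    have := hBmax a ha
    omega
  · omega
  · rw [← he]
    obtain ⟨v, rfl⟩ := Nat.exists_eq_add_of_le hu
    have e : 4 + v - 3 = v + 1 := by omega
    rw [e]
    ring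

end Pool.Agent.TH406.Stan
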