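import Mathlib
import Pool.Agent.TH406.Stan.Ops

/-!
# All characters
-/

set_option autoImplicit false

namespace Pool.Agent.TH406.Stan

open Finset

/-- Boolean check that the list `l` with bit mask `mask` is a modular set modulo `N`. -/
def chk (mask N : ℕ) (l : List ℕ) : Bool :=
  decide (0 < N) && mask.testBit 0 && ((List.range N).filter (fun a => mask.testBit a) == l) &&
  (l.all fun b => l.all fun a => a == b || !(mask.testBit ((2 * b + N - a) % N))) &&
  ((List.range N).all fun x => mask.testBit x ||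
    l.any fun b => decide ((2 * b + N - x) % N < b) && mask.testBit ((2 * b + N - x) % N))

lemma modSet_of_chk {mask N : ℕ} {l : List ℕ} (h : chk mask N l = true) :
    ModSet l.toFinset N := by
  unfold chk at h
  simp only [Bool.and_eq_true, decide_eq_true_eq, beq_iff_eq] at h
  obtain ⟨⟨⟨⟨hN, h0⟩, hl⟩, hfree⟩, hcov⟩ := h
  have hmem : ∀ x, x ∈ l.toFinset ↔ x < N ∧ mask.testBit x = true := by
    intro x
    rw [List.mem_toFinset, ← hl, List.mem_filter, List.mem_range]
  have hmem' : ∀ x, x ∈ l ↔ x < N ∧ mask.testBit x = true := by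
    intro x
    rw [← List.mem_toFinset]; exact hmem x
  rw [List.all_eq_true] at hfree hcov
  constructor
  · rw [hmem]; exact ⟨hN, h0⟩
  · intro a ha
    exact ((hmem a).1 ha).1
  · intro a ha b hb c hc h
    have ha' := (hmem a).1 ha
    have hb' := (hmem b).1 hb
    have hc' := (hmem c).1 hc
    by_cases hab : a = b
    · refine ⟨hab, ?_⟩
      subst hab
      have h1 : (N : ℤ) ∣ (c : ℤ) - a := by
        convert h using 1; ring
      have h2 := Nat.modEq_iff_dvd.2 h1
      have h3 : a % N = c % N := h2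
      rw [Nat.mod_eq_of_lt ha'.1, Nat.mod_eq_of_lt hc'.1] at h3
      exact h3.symm
    · exfalso
      have h1 := hfree b ((hmem' b).2 hb')
      rw [List.all_eq_true] at h1
      have h2 := h1 a ((hmem' a).2 ha')
      have h3 : (2 * b + N - a) % N = c := by
        have h4 : (N : ℤ) ∣ ((2 * b + N - a : ℕ) : ℤ) - c := by
          rw [Nat.cast_sub (by omega)]
          obtain ⟨w, hw⟩ := h
          refine ⟨1 - w, ?_⟩
          push_cast
          linear_combination - hw
        have h5 := Nat.modEq_iff_dvd.2 h4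
        have h6 : c % N = (2 * b + N - a) % N := h5
        rw [← h6, Nat.mod_eq_of_lt hc'.1]
      rw [h3, hc'.2] at h2
      simp [hab] at h2
  · intro x hx hxA
    have h1 := hcov x (List.mem_range.2 hx)
    have h2 : mask.testBit x = false := by
      by_contra h3
      rw [Bool.not_eq_false] at h3
      exact hxA ((hmem x).2 ⟨hx, h3⟩)
    rw [h2, Bool.false_or, List.any_eq_true] at h1
    obtain ⟨b, hb, h3⟩ := h1
    rw [Bool.and_eq_true, decide_eq_true_eq] at h3
    have hb' := (hmem' b).1 hb
    refine ⟨(2 * b + N - x) % N, (hmem _).2 ⟨Nat.mod_lt _ hN, h3.2⟩, b, (hmem b).2 hb', h3.1, ?_⟩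
    have e1 := Nat.div_add_mod (2 * b + N - x) N
    have e2 : ((N * ((2 * b + N - x) / N) + (2 * b + N - x) % N : ℕ) : ℤ) =
      ((2 * b + N - x : ℕ) : ℤ) := by rw [e1]
    rw [Nat.cast_sub (by omega)] at e2
    refine ⟨((2 * b + N - x) / N : ℕ) - 1, ?_⟩
    rw [Nat.cast_add, Nat.cast_mul] at e2
    rw [Nat.cast_add, Nat.cast_mul] at e2
    push_cast at e2 ⊢
    linear_combination -e2

lemma att_of_chk {N : ℕ} {l : List ℕ} (mask κ M lam : ℕ) (h : chk mask N l = true)
    (h2 : (decide (l.toFinset.card = 2 ^ κ) && l.contains M && l.all (fun a => decide (a ≤ M)) &&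
      decide (2 * M + 1 = N + lam)) = true) : Att lam := by
  simp only [Bool.and_eq_true, decide_eq_true_eq, List.all_eq_true, List.contains_iff_mem] at h2
  obtain ⟨⟨⟨h3, h4⟩, h5⟩, h6⟩ := h2
  refine ⟨l.toFinset, N, κ, M, modSet_of_chk h, h3, List.mem_toFinset.2 h4, ?_, h6⟩
  intro a ha
  exact h5 a (List.mem_toFinset.1 ha)

lemma seed_of_chk {N : ℕ} {l : List ℕ} (mask κ r : ℕ) (h : chk mask N l = true)
    (h2 : (decide (l.toFinset.card = 2 ^ κ) && l.contains r && decide (0 < r) &&
      l.all (fun b => decide (b ≤ r) || l.any fun b' =>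
        l.contains ((2 * b' + 2 * N - 2 * b + r) % N) &&
        decide ((2 * b' + 2 * N - 2 * b + r) % N < b') &&
        decide ((2 * b' + 2 * N - 2 * b + r) % N ≠ r))) = true) : Seed N r := by
  simp only [Bool.and_eq_true, decide_eq_true_eq, List.all_eq_true, List.contains_iff_mem,
    Bool.or_eq_true, List.any_eq_true] at h2
  obtain ⟨⟨⟨h3, h4⟩, h5⟩, h6⟩ := h2
  have hA := modSet_of_chk h
  refine ⟨l.toFinset, κ, hA, h3, List.mem_toFinset.2 h4, h5, ?_⟩
  intro b hb hrb
  rcases h6 b (List.mem_toFinset.1 hb) with h7 | ⟨b', hb', ⟨h8, h9⟩, h10⟩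
  · omega
  · refine ⟨_, List.mem_toFinset.2 h8, b', List.mem_toFinset.2 hb', h9, h10, ?_⟩
    have hbN := hA.lt b hb
    have e1 := Nat.div_add_mod (2 * b' + 2 * N - 2 * b + r) N
    have e2 : ((N * ((2 * b' + 2 * N - 2 * b + r) / N) + (2 * b' + 2 * N - 2 * b + r) % N : ℕ) : ℤ)
      = ((2 * b' + 2 * N - 2 * b + r : ℕ) : ℤ) := by rw [e1]
    have e3 : ((2 * b' + 2 * N - 2 * b + r : ℕ) : ℤ) = 2 * b' + 2 * N - 2 * b + r := by
      rw [Nat.cast_add, Nat.cast_sub (by omega)]
      push_cast
      ring
    rw [e3, Nat.cast_add, Nat.cast_mul] at e2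
    refine ⟨((2 * b' + 2 * N - 2 * b + r) / N : ℕ) - 2, ?_⟩
    linear_combination -e2
lemma seed_3_1 : Seed 3 1 :=
  seed_of_chk (l := [0, 1]) 3 1 1 (by decide +kernel) (by decide +kernel)
lemma seed_3_2 : Seed 3 2 :=
  seed_of_chk (l := [0, 2]) 5 1 2 (by decide +kernel) (by decide +kernel)
lemma seed_10_8 : Seed 10 8 :=
  seed_of_chk (l := [0, 1, 7, 8]) 387 2 8 (by decide +kernel) (by decide +kernel)
lemma seed_29_26 : Seed 29 26 :=
  seed_of_chk (l := [0, 2, 10, 12, 15, 16, 25, 26]) 100766725 3 26 (by decide +kernel) (by decide +kernel)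
lemma seed_29_17 : Seed 29 17 :=
  seed_of_chk (l := [0, 2, 6, 8, 11, 13, 17, 19]) 665925 3 17 (by decide +kernel) (by decide +kernel)
lemma seed_29_19 : Seed 29 19 :=
  seed_of_chk (l := [0, 2, 6, 8, 11, 13, 17, 19]) 665925 3 19 (by decide +kernel) (by decide +kernel)
lemma seed_30_21 : Seed 30 21 :=
  seed_of_chk (l := [0, 1, 3, 4, 10, 13, 14, 21]) 2122779 3 21 (by decide +kernel) (by decide +kernel)
lemma seed_32_30 : Seed 32 30 :=
  seed_of_chk (l := [0, 1, 11, 12, 18, 19, 29, 30]) 1611405315 3 30 (by decide +kernel) (by decide +kernel)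
lemma att_2 : Att 2 :=
  att_of_chk (N := 3) (l :=
      [0, 2])
    5 1 2 2 (by decide +kernel) (by decide +kernel)
lemma att_4 : Att 4 :=
  att_of_chk (N := 9) (l :=
      [0, 2, 5, 6])
    101 2 6 4 (by decide +kernel) (by decide +kernel)
lemma att_7 : Att 7 :=
  att_of_chk (N := 10) (l :=
      [0, 1, 7, 8])
    387 2 8 7 (by decide +kernel) (by decide +kernel)
lemma att_10 : Att 10 :=
  att_of_chk (N := 27) (l :=
      [0, 1, 4, 6, 10, 13, 15, 18])
    304211 3 18 10 (by decide +kernel) (by decide +kernel)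
lemma att_13 : Att 13 :=
  att_of_chk (N := 30) (l :=
      [0, 1, 3, 4, 10, 13, 14, 21])
    2122779 3 21 13 (by decide +kernel) (by decide +kernel)
lemma att_17 : Att 17 :=
  att_of_chk (N := 28) (l :=
      [0, 4, 5, 9, 15, 17, 20, 22])
    5407281 3 22 17 (by decide +kernel) (by decide +kernel)
lemma att_19 : Att 19 :=
  att_of_chk (N := 28) (l :=
      [0, 1, 3, 4, 19, 20, 22, 23])
    14155803 3 23 19 (by decide +kernel) (by decide +kernel)
lemma att_21 : Att 21 :=
  att_of_chk (N := 30) (l :=
      [0, 1, 3, 4, 21, 22, 24, 25])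
    56623131 3 25 21 (by decide +kernel) (by decide +kernel)
lemma att_23 : Att 23 :=
  att_of_chk (N := 30) (l :=
      [0, 7, 9, 10, 16, 17, 19, 26])
    67831425 3 26 23 (by decide +kernel) (by decide +kernel)
lemma att_25 : Att 25 :=
  att_of_chk (N := 32) (l :=
      [0, 2, 3, 5, 23, 25, 26, 28])
    377487405 3 28 25 (by decide +kernel) (by decide +kernel)
lemma att_28 : Att 28 :=
  att_of_chk (N := 31) (l :=
      [0, 3, 4, 7, 22, 25, 26, 29])
    641728665 3 29 28 (by decide +kernel) (by decide +kernel)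
lemma att_31 : Att 31 :=
  att_of_chk (N := 34) (l :=
      [0, 3, 4, 7, 25, 28, 29, 32])
    5133828249 3 32 31 (by decide +kernel) (by decide +kernel)
lemma att_37 : Att 37 :=
  att_of_chk (N := 84) (l :=
      [0, 1, 3, 4, 9, 10, 12, 13, 28, 29, 31, 37, 38, 40, 41, 60])
    1152925218411394587 4 60 37 (by decide +kernel) (by decide +kernel)
lemma att_43 : Att 43 :=
  att_of_chk (N := 84) (l :=
      [0, 2, 5, 13, 17, 18, 22, 30, 33, 35, 41, 45, 46, 50, 56, 63])
    9296663326967078949 4 63 43 (by decide +kernel) (by decide +kernel)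
lemma att_49 : Att 49 :=
  att_of_chk (N := 84) (l :=
      [0, 1, 3, 4, 9, 10, 12, 13, 28, 31, 32, 40, 41, 57, 65, 66])
    110824582935578949147 4 66 49 (by decide +kernel) (by decide +kernel)
lemma att_55 : Att 55 :=
  att_of_chk (N := 82) (l :=
      [0, 1, 3, 4, 9, 10, 12, 13, 55, 56, 58, 59, 64, 65, 67, 68])
    499034867509669934619 4 68 55 (by decide +kernel) (by decide +kernel)
lemma att_61 : Att 61 :=
  att_of_chk (N := 84) (l :=
      [0, 11, 13, 18, 24, 28, 29, 33, 41, 44, 46, 52, 57, 61, 67, 72])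
    4872394987425604315137 4 72 61 (by decide +kernel) (by decide +kernel)
lemma att_91 : Att 91 :=
  att_of_chk (N := 92) (l :=
      [0, 2, 6, 9, 11, 15, 17, 26, 65, 67, 71, 74, 76, 80, 82, 91])
    2482021700649173260561451589 4 91 91 (by decide +kernel) (by decide +kernel)
lemma att_109 : Att 109 :=
  att_of_chk (N := 246) (l :=
      [0, 1, 3, 4, 9, 10, 12, 13, 27, 28, 30, 31, 36, 37, 39, 40, 82, 83, 85, 86, 91, 92, 94,
       109, 110, 112, 113, 118, 119, 121, 122, 177])
    191561942608236116284606379204770686096078329975158299 5 177 109 (by decide +kernel) (by decide +kernel)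
lemma att_145 : Att 145 :=
  att_of_chk (N := 246) (l :=
      [0, 1, 3, 4, 9, 10, 12, 13, 27, 28, 30, 31, 36, 37, 39, 40, 82, 83, 91, 92, 94, 110, 118,
       119, 121, 122, 167, 168, 177, 191, 194, 195])
    78463963815492746519130356760762211756803196519806702466587 5 195 145 (by decide +kernel) (by decide +kernel)
lemma att_163 : Att 163 :=
  att_of_chk (N := 244) (l :=
      [0, 1, 3, 4, 9, 10, 12, 13, 27, 28, 30, 31, 36, 37, 39, 40, 163, 164, 166, 167, 172, 173,
       175, 176, 190, 191, 193, 194, 199, 200, 202, 203])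
    21736034196156302244335070385526255825984320157354267781379611 5 203 163 (by decide +kernel) (by decide +kernel)
lemma att_181 : Att 181 :=
  att_of_chk (N := 252) (l :=
      [0, 4, 5, 9, 15, 17, 20, 22, 28, 32, 33, 37, 43, 45, 50, 84, 88, 89, 93, 99, 101, 104, 106,
       112, 116, 117, 121, 127, 129, 132, 134, 216])
    105312291668557186697918055759878686425982206414347537797027627569 5 216 181 (by decide +kernel) (by decide +kernel)
lemma base10 : ModSet (([0, 1, 7, 8] : List ℕ).toFinset) 10 :=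
  modSet_of_chk (mask := 387) (by decide +kernel)

/-- seeds with an odd factor -/
lemma att_odd' {M r : ℕ} (hM : 2 ≤ M) (h : Seed M r) (j u lam : ℕ)
    (hl : 3 ^ j * (2 * r + M * (2 * u + 1)) + 1 = lam) : Att lam := by
  have h1 := (h.scale hM j).att_odd u
  rw [← hl]
  convert h1 using 1
  ring

/-- seeds with an even factor -/
lemma att_even' {M r : ℕ} (hM : 2 ≤ M) (h : Seed M r) (j u lam : ℕ) (hu : 4 ≤ u)
    (hl : 3 ^ j * (2 * r + M * (2 * u)) + 1 = lam) : Att lam := by
  have h1 := (h.scale hM j).att_even base10 (by decide) (by decide) (by decide) u hu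
  rw [← hl]
  convert h1 using 1
  ring

lemma att_zero : Att 0 := by
  obtain ⟨F, mx, hF, hc, hmx, hmax, he⟩ := exists_S 0
  exact ⟨F, 3 ^ 0, 0, mx, hF, hc, hmx, hmax, by omega⟩

lemma att_all (lam : ℕ) (hlam : lam ∉ ({1, 3, 5, 9, 11, 15} : Finset ℕ)) : Att lam := by
  rcases Nat.eq_zero_or_pos lam with h0 | hpos
  · rw [h0]; exact att_zero
  rcases Nat.even_or_odd' lam with ⟨w, hw | hw⟩
  · -- even
    have hL0 : lam - 1 ≠ 0 := by omega
    obtain ⟨p, ℓ, hℓ3, hL⟩ := Nat.exists_eq_pow_mul_and_not_dvd hL0 3 (by norm_num)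
    have hlam' : lam = 3 ^ p * ℓ + 1 := by omega
    have hodd : ℓ % 2 = 1 := by
      by_contra hcon
      have h2 : ℓ % 2 = 0 := by omega
      have h3 : 2 ∣ 3 ^ p * ℓ := Dvd.dvd.mul_left (Nat.dvd_of_mod_eq_zero h2) _
      omega
    have h3 : ℓ % 3 ≠ 0 := fun h => hℓ3 (Nat.dvd_of_mod_eq_zero h)
    rcases Nat.lt_or_ge ℓ 5 with h5 | h5
    · have hℓ : ℓ = 1 := by omega
      rw [hℓ, mul_one] at hlam'
      rcases Nat.lt_or_ge p 4 with hp | hp
      · interval_cases p
        · rw [hlam']; exact att_2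
        · rw [hlam']; exact att_4
        · rw [hlam']; exact att_10
        · rw [hlam']; exact att_28
      · obtain ⟨q, rfl⟩ := Nat.exists_eq_add_of_le hp
        apply att_odd' (by norm_num) seed_29_26 q 0
        rw [hlam']; ring
    · have h6 : ℓ % 6 = 5 ∨ ℓ % 6 = 1 := by omega
      rcases h6 with h6 | h6
      · obtain ⟨u, hu⟩ : ∃ u, ℓ = 5 + 6 * u := ⟨ℓ / 6, by omega⟩
        apply att_odd' (by norm_num) seed_3_1 p u
        rw [hlam', hu]; ring
      · obtain ⟨u, hu⟩ : ∃ u, ℓ = 7 + 6 * u := ⟨ℓ / 6 - 1, by omega⟩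
        apply att_odd' (by norm_num) seed_3_2 p u
        rw [hlam', hu]; ring
  · -- odd
    simp only [Finset.mem_insert, Finset.mem_singleton, not_or] at hlam
    have hw0 : w ≠ 0 := by omega
    obtain ⟨p, v, hv3, hv⟩ := Nat.exists_eq_pow_mul_and_not_dvd hw0 3 (by norm_num)
    have hlam' : lam = 3 ^ p * (2 * v) + 1 := by rw [hw, hv]; ring
    have h3 : v % 3 ≠ 0 := fun h => hv3 (Nat.dvd_of_mod_eq_zero h)
    clear hv hv3
    rcases Nat.lt_or_ge v 13 with h13 | h13
    · have hv : v = 1 ∨ v = 2 ∨ v = 4 ∨ v = 5 ∨ v = 7 ∨ v = 8 ∨ v = 10 ∨ v = 11 := by omega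
      rcases hv with rfl | rfl | rfl | rfl | rfl | rfl | rfl | rfl
      · -- v = 1
        rcases Nat.lt_or_ge p 5 with hp | hp
        · interval_cases p
          · omega
          · rw [hlam']; exact att_7
          · rw [hlam']; exact att_19
          · rw [hlam']; exact att_55
          · rw [hlam']; exact att_163
        · obtain ⟨q, rfl⟩ := Nat.exists_eq_add_of_le hp
          apply att_odd' (by norm_num) seed_10_8 q 23
          rw [hlam']; ring
      · -- v = 2
        rcases Nat.lt_or_ge p 4 with hp | hp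
        · interval_cases p
          · omega
          · rw [hlam']; exact att_13
          · rw [hlam']; exact att_37
          · rw [hlam']; exact att_109
        · obtain ⟨q, rfl⟩ := Nat.exists_eq_add_of_le hp
          apply att_even' (by norm_num) seed_29_17 q 5 _ (by norm_num)
          rw [hlam']; ring
      · -- v = 4
        rcases Nat.lt_or_ge p 2 with hp | hp
        · interval_cases p
          · omega
          · rw [hlam']; exact att_25
        · obtain ⟨q, rfl⟩ := Nat.exists_eq_add_of_le hp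
          apply att_odd' (by norm_num) seed_30_21 q 0
          rw [hlam']; ring
      · -- v = 5
        rcases Nat.lt_or_ge p 3 with hp | hp
        · interval_cases p
          · omega
          · rw [hlam']; exact att_31
          · rw [hlam']; exact att_91
        · obtain ⟨q, rfl⟩ := Nat.exists_eq_add_of_le hp
          apply att_even' (by norm_num) seed_29_19 q 4 _ (by norm_num)
          rw [hlam']; ring
      · -- v = 7
        rcases Nat.lt_or_ge p 2 with hp | hp
        · interval_cases p
          · omega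
          · rw [hlam']; exact att_43
        · obtain ⟨q, rfl⟩ := Nat.exists_eq_add_of_le hp
          apply att_odd' (by norm_num) seed_10_8 q 5
          rw [hlam']; ring
      · -- v = 8
        rcases Nat.lt_or_ge p 3 with hp | hp
        · interval_cases p
          · rw [hlam']; exact att_17
          · rw [hlam']; exact att_49
          · rw [hlam']; exact att_145
        · obtain ⟨q, rfl⟩ := Nat.exists_eq_add_of_le hp
          apply att_odd' (by norm_num) seed_30_21 q 6
          rw [hlam']; ring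
      · -- v = 10
        rcases Nat.lt_or_ge p 3 with hp | hp
        · interval_cases p
          · rw [hlam']; exact att_21
          · rw [hlam']; exact att_61
          · rw [hlam']; exact att_181
        · obtain ⟨q, rfl⟩ := Nat.exists_eq_add_of_le hp
          apply att_odd' (by norm_num) seed_32_30 q 7
          rw [hlam']; ring
      · -- v = 11
        rcases Nat.lt_or_ge p 1 with hp | hp
        · interval_cases p
          · rw [hlam']; exact att_23
        · obtain ⟨q, rfl⟩ := Nat.exists_eq_add_of_le hp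
          apply att_odd' (by norm_num) seed_10_8 q 2
          rw [hlam']; ring
    · rcases (by omega : v % 3 = 1 ∨ v % 3 = 2) with h | h
      · obtain ⟨u, hu⟩ : ∃ u, v = 1 + 3 * u := ⟨v / 3, by omega⟩
        apply att_even' (by norm_num) seed_3_1 p u _ (by omega)
        rw [hlam', hu]; ring
      · obtain ⟨u, hu⟩ : ∃ u, v = 2 + 3 * u := ⟨v / 3, by omega⟩
        apply att_even' (by norm_num) seed_3_2 p u _ (by omega)
        rw [hlam', hu]; ring

end Pool.Agent.TH406.Stan
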